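import Pool.Agent.X20.Tr.Fin

/-!
# The prime gaps met by the sequences `⌊α n ^ c⌋`

For every `c > 1` and all `α > 0` outside a set of Hausdorff dimension less than one: the distances to the next
prime along `⌊α n ^ c⌋` have the same distribution as along all integers, with a power saving, gaps of the record
size occur, with the right kind of frequency, and distances of at most `lam log n` occur for a positive proportion
of the `n`, for every `lam > 0`.
From Mathlib: `dimH E`: the Hausdorff dimension; `⌊x⌋₊`: the integer part; `Finset.Icc 1 N`: the integers from `1`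
to `N`; `Finset.Ioc 0 M`: the integers from `1` to `M`; `sInf S`: the least element of the set `S` of integers.
-/

set_option autoImplicit false

namespace Pool.Agent.Results.MP_7b323f_nt.GapsAlongDilatedPowers

open Finset

/-- the distance from `m` to the next prime: the least `k ≥ 1` such that `m + k` is prime -/
noncomputable def dist (m : ℕ) : ℕ := sInf {k : ℕ | 0 < k ∧ (m + k).Prime}

/-- the record size `f(x) = log x (log₂ x)² log₄ x / (log₃ x)²` (iterated natural logarithms) of the known gaps -/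
noncomputable def f (x : ℝ) : ℝ :=
  Real.log x * (Real.log (Real.log x)) ^ 2 * Real.log (Real.log (Real.log (Real.log x))) /
    (Real.log (Real.log (Real.log x))) ^ 2

open Classical in
/-- For every real `c > 1` there are `κ > 0` and a set `E` of real numbers of Hausdorff dimension at most `1 - κ`
such that for every real `α > 0` outside `E`:

* for all large `N` and ALL integers `0 ≤ t ≤ N ^ κ` the number of the `n ≤ N` with `dist ⌊α n ^ c⌋ > t` is, up to
  `N ^ (1 - κ)`, equal to the sum of the weights `(1 / c) α ^ (-1 / c) m ^ (1 / c - 1)` (the density of the sequence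
  at `m`) over the integers `m ≤ α N ^ c` with `dist m > t`;
* for every `lam > 0` there is `b > 0` such that for all large `N` at least `b N` of the `n ≤ N` have
  `dist ⌊α n ^ c⌋ ≤ lam log n`;
* for all large `N`, with `x = α N ^ c`, and all real `H` with `log x ≤ H ≤ κ f(x)`, at least `N x ^ (-5 H / f(x))`
  of the `n ≤ N` have `dist ⌊α n ^ c⌋ > H`. -/
theorem result (c : ℝ) (hc : 1 < c) : ∃ κ : ℝ, 0 < κ ∧ κ < 1 ∧ ∃ E : Set ℝ, dimH E ≤ ENNReal.ofReal (1 - κ) ∧
    ∀ α : ℝ, 0 < α → α ∉ E →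
    (∃ N₀ : ℕ, ∀ N : ℕ, N₀ ≤ N → ∀ t : ℕ, (t : ℝ) ≤ (N : ℝ) ^ κ →
      |(((Icc 1 N).filter (fun n : ℕ => t < dist ⌊α * (n : ℝ) ^ c⌋₊)).card : ℝ) -
        1 / c * α ^ (-(1 / c)) * ∑ m ∈ (Ioc 0 ⌊α * (N : ℝ) ^ c⌋₊).filter (fun m => t < dist m),
          (m : ℝ) ^ (1 / c - 1)| ≤ (N : ℝ) ^ (1 - κ)) ∧
    (∀ lam : ℝ, 0 < lam → ∃ b : ℝ, 0 < b ∧ ∃ N₀ : ℕ, ∀ N : ℕ, N₀ ≤ N →
      b * N ≤ (((Icc 1 N).filter (fun n : ℕ => (dist ⌊α * (n : ℝ) ^ c⌋₊ : ℝ) ≤ lam * Real.log n)).card : ℝ)) ∧
    (∃ N₀ : ℕ, ∀ N : ℕ, N₀ ≤ N → ∀ H : ℝ, Real.log (α * (N : ℝ) ^ c) ≤ H → H ≤ κ * f (α * (N : ℝ) ^ c) →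
      N * (α * (N : ℝ) ^ c) ^ (-(5 * H / f (α * (N : ℝ) ^ c))) ≤
        (((Icc 1 N).filter (fun n : ℕ => H < dist ⌊α * (n : ℝ) ^ c⌋₊)).card : ℝ)) :=
  Pool.Agent.X20.Tr.main c hc

end Pool.Agent.Results.MP_7b323f_nt.GapsAlongDilatedPowers
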