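import Mathlib
import Pool.Agent.X145.ML.Lin

set_option autoImplicit false

/-!
# Record prime gaps around the values of the polynomials `A(x) y + B(z)`

Let `f(Z) = log Z (log₂ Z)² log₄ Z / (log₃ Z)²` (iterated natural logarithms), the size of the largest gaps
between consecutive primes that are known to occur up to `Z`.

Let `A_j ≠ 0` be integer polynomials in the variables `x = (x_1, …, x_a)` and `B_j` nonconstant integer polynomials in
other variables `z = (z_1, …, z_b)`, and let `y` be one more variable (`j` in a finite set). Suppose that no two of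
the polynomials `F_j = A_j(x) y + B_j(z)` are related by `μ F_i = ν F_j + κ` with integers `μ ≠ 0`, `ν`, `κ`. Then for
all large `Z` every box of side `Z` contains an integer point `(x, z, y)` such that ALL the numbers
`A_j(x) y + B_j(z)` are surrounded by integers with a prime factor `≤ Z ^ (1/10)`, up to the distance `c f(Z)`.

For example (`a = b = 1`) all the numbers `A(x) y + B(z)`, where `(A, B)` runs through all pairs of polynomials of
degree and height at most `k` with `A ≠ 0`, `B ≠ 0`, `B(0) = 0`, one of each pair of opposite ones, whose coefficients have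
no common factor. The condition is necessary for the method: if `F_i` is an affine function of `F_j`, the two
equations modulo `p` are dependent. The polynomials are arbitrary and not homogeneous for any weights. For a constant
`A` the theorem contains the polynomials `y + B(z)`, but `B` must be nonconstant: `x y = r` has too many solutions for
`r = 0`.

Modulo a large prime, one equation `F_j = r` has `p ^ (d-1) + O(p ^ (d-2))` solutions for ALL `r`, `d = a + b + 1`; for
two equations one eliminates `y`, and shows that the resulting polynomial in `z` vanishes identically only for few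
`x`, uniformly in the right hand sides (lemma of Schwartz and Zippel, twice). The sieve is that of the starting
library (`Pool.Agent.Y837.SV.gen3t`).
-/

namespace Pool.Agent.Results.MP_7b323f_nt.LinearInOneVariable

open MvPolynomial

/-- The record scale `f(Z) = log Z (log₂ Z)² log₄ Z / (log₃ Z)²` (iterated natural logarithms). -/
noncomputable def f (Z : ℝ) : ℝ :=
  Real.log Z * (Real.log (Real.log Z)) ^ 2 * Real.log (Real.log (Real.log (Real.log Z))) /
    (Real.log (Real.log (Real.log Z))) ^ 2

/-- Every integer at distance at most `c f(Z)` from `N` has a prime factor `p ≤ Z ^ (1/10)`. -/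
def Isolated (c : ℝ) (Z : ℕ) (N : ℤ) : Prop :=
  ∀ n : ℤ, |(n : ℝ) - (N : ℝ)| ≤ c * f Z →
    ∃ p : ℕ, p.Prime ∧ (p : ℝ) ≤ (Z : ℝ) ^ (1 / 10 : ℝ) ∧ (p : ℤ) ∣ n

/-- **Record gaps around the values of the polynomials `A_j(x) y + B_j(z)`.** Let `A_j ≠ 0` and `B_j` nonconstant
such that for `i ≠ j` no relation `μ A_i = ν A_j`, `μ B_i = ν B_j + κ` with `μ ≠ 0` holds. There are `c > 0` and `Z₀`
such that for `Z ≥ Z₀` every box with sides `Z` contains an integer point `(x, z, y)` such that all
`A_j(x) y + B_j(z)` are isolated. -/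
theorem result {ι : Type} [Fintype ι] {a b : ℕ} (A : ι → MvPolynomial (Fin a) ℤ)
    (B : ι → MvPolynomial (Fin b) ℤ) (hA : ∀ j, A j ≠ 0) (hB : ∀ j, ∀ k : ℤ, B j ≠ C k)
    (hne : ∀ i j, i ≠ j → ∀ μ ν κ : ℤ, μ ≠ 0 → C μ * A i = C ν * A j →
      C μ * B i ≠ C ν * B j + C κ) :
    ∃ c : ℝ, 0 < c ∧ ∃ Z₀ : ℝ, ∀ Z : ℕ, Z₀ ≤ Z → ∀ (L : Fin a → ℤ) (M : Fin b → ℤ) (N : ℤ),
      ∃ (x : Fin a → ℤ) (z : Fin b → ℤ) (y : ℤ),
        ((∀ i, L i < x i ∧ x i ≤ L i + Z) ∧ (∀ i, M i < z i ∧ z i ≤ M i + Z) ∧
          N < y ∧ y ≤ N + Z) ∧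
        ∀ j, Isolated c Z (eval x (A j) * y + eval z (B j)) := by
  classical
  obtain ⟨c, hc, Z₀, h⟩ := Pool.Agent.X145.ML.linFamily A B hA hB hne
  refine ⟨c, hc, Z₀, fun Z hZ L M N => ?_⟩
  obtain ⟨u, hu1, hu2⟩ := h Z hZ (Pool.Agent.X145.ML.mk3 L M N)
  refine ⟨fun i => u (Sum.inl (Sum.inl i)), fun i => u (Sum.inl (Sum.inr i)), u (Sum.inr ()),
    ⟨fun i => hu1 (Sum.inl (Sum.inl i)), fun i => hu1 (Sum.inl (Sum.inr i)),
      hu1 (Sum.inr ())⟩, fun j t ht => hu2 j t ?_⟩
  unfold Pool.Agent.X145.ML.lin
  rw [MvPolynomial.aeval_eq_eval, MvPolynomial.aeval_eq_eval]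
  exact ht

end Pool.Agent.Results.MP_7b323f_nt.LinearInOneVariable
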