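import Pool.Agent.X164.MP.PrimMain

set_option autoImplicit false

open Polynomial

namespace Pool.Agent.Results.MP_7b323f_nt.PrimitiveRoots

/-- The record scale `f(x) = log x (log₂ x)² log₄ x / (log₃ x)²` (iterated natural logarithms): the
order of the largest prime gaps which are known to occur up to `x`. -/
noncomputable def f (x : ℝ) : ℝ :=
  Real.log x * (Real.log (Real.log x)) ^ 2 * Real.log (Real.log (Real.log (Real.log x))) /
    (Real.log (Real.log (Real.log x))) ^ 2

/-- **Record prime gaps around polynomial values at primitive roots, in boxes.** For all `r ≥ 1`, `k`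
and `ε > 0` there are `κ > 0` and `p₀` such that for every prime `p ≥ p₀`, all polynomials
`F 0, …, F (r - 1)` over `ℤ/p` of degree at most `k` of which no nontrivial linear combination is
constant, and all intervals `(L j, R j]` in `[0, p)` the product of whose lengths is at least
`p ^ (r - 1 / 2 + ε)`, there is a primitive root `g` modulo `p` such that for all `j` the least
nonnegative residue of `F j (g)` is in `(L j, R j]` and no prime is within `κ f(p)` of it. -/
theorem result (r k : ℕ) (hr : 1 ≤ r) (ε : ℝ) (hε : 0 < ε) : ∃ κ : ℝ, 0 < κ ∧ ∃ p₀ : ℕ,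
    ∀ (p : ℕ) [Fact p.Prime], p₀ ≤ p → ∀ F : Fin r → (ZMod p)[X], (∀ j, (F j).natDegree ≤ k) →
      (∀ (h : Fin r → ZMod p) (c : ZMod p), ∑ j, C (h j) * F j = C c → h = 0) →
      ∀ L R : Fin r → ℕ, (∀ j, L j ≤ R j) → (∀ j, R j < p) →
      (p : ℝ) ^ ((r : ℝ) - 1 / 2 + ε) ≤ ∏ j, ((R j : ℝ) - L j) →
      ∃ g : ZMod p, orderOf g = p - 1 ∧ ∀ j, L j < ((F j).eval g).val ∧
        ((F j).eval g).val ≤ R j ∧
        ∀ q : ℕ, q.Prime → κ * f p < |(q : ℝ) - (((F j).eval g).val : ℝ)| :=
  Pool.Agent.X164.MP.prim_main r k hr ε hε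

end Pool.Agent.Results.MP_7b323f_nt.PrimitiveRoots
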