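import Pool.Agent.X29.RW.Fin

/-!
# Random walks and record gaps between primes

Let `F(M) = log M (log₂ M)² log₄ M / (log₃ M)²`.  Let `S_n = X_1 + ⋯ + X_n` be a random walk in `ℤ ^ d` with independent,
identically distributed steps; the only condition is that the differences of the values of a step (of positive probability)
generate `ℤ ^ d`.  No moment of the steps needs to exist.  Let `t_1, …, t_r` be any `r` times, `t_1 ≥ M ^ η` and
`t_(k+1) ≥ t_k + M ^ η`.  Then with probability at least `M ^ (-η)` NONE of the `r d` coordinates of the positions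
`S_(t_1), …, S_(t_r)` has a prime within distance `κ F(M)`.  The constant `κ` depends on `d`, `r`, `η` only.

For the lazy simple walk in `ℤ` and `t_k ≤ M` the positions have size at most about `√M`, so that these are the largest gaps
between primes which are known to occur.

Proof: `MP_b0c12c_nt.EquidistributedVectors` (that is `Pool.Agent.X29.EV`, on the basis of the joint covering sieve
`Pool.Agent.Y961.JR` of helper961): a random vector which is equidistributed modulo the integers `q ≤ M ^ η` has this
property.  The characteristic function of a step at `g / q` is at most `1 - c / q²`.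
-/

set_option autoImplicit false

namespace Pool.Agent.Results.MP_7b323f_nt.RandomWalks

open MeasureTheory Filter ProbabilityTheory

/-- `F(x) = log x (log log x)² log log log log x / (log log log x)²` -/
noncomputable def F (x : ℝ) : ℝ :=
  Real.log x * (Real.log (Real.log x)) ^ 2 * Real.log (Real.log (Real.log (Real.log x))) /
    (Real.log (Real.log (Real.log x))) ^ 2

/-- the differences of the values of `X` of positive probability generate `ℤ ^ d` -/
def Aperiodic {Ω : Type} [MeasurableSpace Ω] (μ : Measure Ω) {d : ℕ} (X : Ω → Fin d → ℤ) : Prop :=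
  AddSubgroup.closure {z : Fin d → ℤ | ∃ x y : Fin d → ℤ, 0 < μ.real {ω | X ω = x} ∧
    0 < μ.real {ω | X ω = y} ∧ z = x - y} = ⊤

theorem result (d r : ℕ) (hd : 1 ≤ d) (hr : 1 ≤ r) (η : ℝ) (h0 : 0 < η) (h1 : η ≤ 1) :
    ∃ κ : ℝ, 0 < κ ∧ ∀ (Ω : Type) (_ : MeasurableSpace Ω) (μ : Measure Ω), IsProbabilityMeasure μ →
    ∀ X : ℕ → Ω → Fin d → ℤ, (∀ i, Measurable (X i)) → iIndepFun X μ →
    (∀ i, μ.map (X i) = μ.map (X 0)) → Aperiodic μ (X 0) →
    ∀ᶠ M : ℝ in atTop, ∀ t : Fin r → ℕ, (∀ k, M ^ η ≤ t k) →
      (∀ k l, k < l → t k + M ^ η ≤ t l) →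
      M ^ (-η) ≤ μ.real {x | ∀ k j, ∀ p : ℕ, p.Prime →
        κ * F M < |(p : ℝ) - ((∑ i ∈ Finset.range (t k), X i x j : ℤ) : ℝ)|} :=
  Pool.Agent.X29.RW.walks d r hd hr η h0 h1

end Pool.Agent.Results.MP_7b323f_nt.RandomWalks
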